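import Mathlib

set_option autoImplicit false

namespace Pool.Agent.Results.MP_49f1ce_an.Counter

open Set Filter Topology
open scoped Classical

/-- the left shift. -/
def shift {A : Type} (x : ℤ → A) : ℤ → A := fun i => x (i + 1)

/-- the region under the graph of the roof function. -/
def Under {X : Type} (r : X → ℝ) : Set (X × ℝ) := {p | 0 ≤ p.2 ∧ p.2 ≤ r p.1}

/-- the suspension space: the points `(x, r x)` and `(σ x, 0)` are identified. -/
abbrev Susp {X : Type} (σ : X → X) (r : X → ℝ) : Type :=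
  Quot fun p q : Under r => p.1.2 = r p.1.1 ∧ q.1 = (σ p.1.1, 0)

/-- `b` is the image of `a` under the time `t` map of the suspension flow, for `t ≥ 0`. -/
def Flow {X : Type} (σ : X → X) (r : X → ℝ) (t : ℝ) (a b : Susp σ r) : Prop :=
  ∃ (p q : Under r) (n : ℕ), a = Quot.mk _ p ∧ b = Quot.mk _ q ∧
    q.1 = (σ^[n] p.1.1, p.1.2 + t - ∑ i ∈ Finset.range n, r (σ^[i] p.1.1))

/-- topological mixing of the suspension flow. -/
def Mixing {X : Type} [TopologicalSpace X] (σ : X → X) (r : X → ℝ) : Prop :=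
  ∀ U V : Set (Susp σ r), IsOpen U → IsOpen V → U.Nonempty → V.Nonempty →
    ∃ T : ℝ, 0 ≤ T ∧ ∀ t, T ≤ t → ∃ a ∈ U, ∃ b ∈ V, Flow σ r t a b

def P0 : Set ℤ := {n | ∃ j : ℕ, 8 ^ j ≤ n ∧ n < 2 * 8 ^ j}

def X0 : Set (ℤ → Bool) := {x | ∀ i j, i < j → x i = true → x j = true → j - i ∈ P0}

def sh (s : ℤ) (x : X0) : X0 := ⟨fun i => x.1 (i + s), fun i j hij hi hj => by
  have := x.2 (i + s) (j + s) (by omega) hi hj
  rwa [add_sub_add_right_eq_sub] at this⟩

lemma maps : MapsTo shift X0 X0 := fun x hx => (sh 1 ⟨x, hx⟩).2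

def σ0 : X0 → X0 := maps.restrict

lemma σ0_sh (s : ℤ) (x : X0) : σ0 (sh s x) = sh (s + 1) x :=
  Subtype.ext (funext fun i => by
    change x.1 (i + 1 + s) = x.1 (i + (s + 1))
    rw [add_assoc, add_comm 1 s])

lemma σ0_iter (n : ℕ) (x : X0) : σ0^[n] x = sh n x := by
  induction n with
  | zero => exact Subtype.ext (funext fun i => by simp [sh])
  | succ n ih => rw [Function.iterate_succ_apply', ih, σ0_sh]; push_cast; rfl

lemma lt8 (j : ℕ) : (j : ℤ) < 8 ^ j := by exact_mod_cast Nat.lt_pow_self (by norm_num)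

lemma gap {j : ℕ} {n : ℤ} (h1 : 2 * 8 ^ j ≤ n) (h2 : n < 8 * 8 ^ j) : n ∉ P0 := by
  rintro ⟨i, h3, h4⟩
  rcases le_or_gt i j with h | h
  · have : (8 : ℤ) ^ i ≤ 8 ^ j := pow_le_pow_right₀ (by norm_num) h
    omega
  · have : (8 : ℤ) ^ (j + 1) ≤ 8 ^ i := pow_le_pow_right₀ (by norm_num) h
    rw [pow_succ] at this
    omega

noncomputable def tl (x : X0) : ℝ := ∑' p : ℕ, if x.1 (p + 1) = true then (1 / 2 : ℝ) ^ (p + 1) else 0

noncomputable def r0 (x : X0) : ℝ := 1 + if x.1 0 = true then tl x else 0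

lemma co (i : ℤ) : Continuous fun x : X0 => x.1 i :=
  (continuous_apply (A := fun _ : ℤ => Bool) i).comp continuous_subtype_val

lemma sm : Summable fun p : ℕ => (1 / 2 : ℝ) ^ (p + 1) :=
  (summable_nat_add_iff 1).2 summable_geometric_two

lemma tl_cont : Continuous tl := by
  refine continuous_tsum (fun p => ?_) sm fun p x => ?_
  · exact (continuous_of_discreteTopology
      (f := fun b : Bool => if b = true then (1 / 2 : ℝ) ^ (p + 1) else 0)).comp (co _)
  · split_ifs
    · rw [Real.norm_of_nonneg (by positivity)]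
    · simp

lemma tl_bd (x : X0) : 0 ≤ tl x ∧ tl x ≤ 1 := by
  refine ⟨tsum_nonneg fun p => by split_ifs <;> positivity, ?_⟩
  have h1 : ∑' p : ℕ, (1 / 2 : ℝ) ^ (p + 1) = 1 := by
    simp_rw [pow_succ]
    rw [tsum_mul_right, tsum_geometric_two]; norm_num
  rw [← h1]
  have hb : ∀ p : ℕ, (if x.1 (p + 1) = true then (1 / 2 : ℝ) ^ (p + 1) else 0) ≤
      (1 / 2) ^ (p + 1) := fun p => by split_ifs <;> first | exact le_rfl | positivity
  exact Summable.tsum_le_tsum hb
    (Summable.of_nonneg_of_le (fun p => by split_ifs <;> positivity) hb sm) sm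

lemma r0_bd (x : X0) : 1 ≤ r0 x ∧ r0 x ≤ 2 := by
  have := tl_bd x
  unfold r0
  split_ifs <;> constructor <;> linarith

lemma r0_cont : Continuous r0 := by
  have : r0 = fun x => 1 + (if x.1 0 = true then (1 : ℝ) else 0) * tl x := by
    funext x; unfold r0; split_ifs <;> simp
  rw [this]
  exact continuous_const.add (((continuous_of_discreteTopology
      (f := fun b : Bool => if b = true then (1 : ℝ) else 0)).comp (co _)).mul tl_cont)

lemma cyl {U : Set X0} {x : X0} (hU : U ∈ 𝓝 x) :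
    ∃ m : ℕ, ∀ y : X0, (∀ i : ℤ, |i| ≤ m → y.1 i = x.1 i) → y ∈ U := by
  rw [nhds_subtype_eq_comap, mem_comap] at hU
  obtain ⟨V, hV, hVU⟩ := hU
  rw [nhds_pi, mem_pi'] at hV
  obtain ⟨W, s, hs, h⟩ := hV
  refine ⟨W.sup Int.natAbs, fun y hy => hVU (h fun t ht => ?_)⟩
  rw [hy t (by
    have := Finset.le_sup (f := Int.natAbs) ht
    rw [Int.abs_eq_natAbs]; exact_mod_cast this)]
  exact mem_of_mem_nhds (hs t)

def zero : X0 := ⟨fun _ => false, fun _ _ _ h => by simp at h⟩

def e1 : X0 := ⟨fun i => decide (i = 0), fun i j hij hi hj => by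
  simp only [decide_eq_true_eq] at hi hj; omega⟩

def e2 (j : ℕ) : X0 := ⟨fun i => decide (i = 0 ∨ i = 8 ^ j), fun a b hab ha hb => by
  simp only [decide_eq_true_eq] at ha hb
  have : (0 : ℤ) < 8 ^ j := by positivity
  exact ⟨j, by omega, by omega⟩⟩

lemma to_zero (x : X0) (B : ℤ) (hx : ∀ i, x.1 i = true → |i| ≤ B) (ε c : ℤ) (hε : ε = 1 ∨ ε = -1) :
    Tendsto (fun M : ℕ => sh (ε * M + c) x) atTop (𝓝 zero) := by
  rw [tendsto_subtype_rng, tendsto_pi_nhds]
  intro i
  refine tendsto_const_nhds.congr' ?_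
  filter_upwards [eventually_gt_atTop (B + |i| + |c|).toNat] with M hM
  change false = x.1 (i + (ε * M + c))
  by_contra h
  have := hx _ (by simpa using h)
  rw [abs_le] at this
  have h1 := le_abs_self i
  have h2 := neg_abs_le i
  have h3 := le_abs_self c
  have h4 := neg_abs_le c
  rcases hε with rfl | rfl <;> omega

theorem result : ∃ (X : Set (ℤ → Bool)) (hX : MapsTo shift X X) (r : X → ℝ),
    X.Nonempty ∧ IsClosed X ∧ SurjOn shift X X ∧
    (∀ U V : Set X, IsOpen U → IsOpen V → U.Nonempty → V.Nonempty →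
      ∃ n, 1 ≤ n ∧ (((hX.restrict shift X X)^[n] '' U) ∩ V).Nonempty) ∧
    {x : X | ∃ n, 1 ≤ n ∧ (hX.restrict shift X X)^[n] x = x}.Finite ∧
    Continuous r ∧ (∀ x, 0 < r x) ∧ ¬ Mixing (hX.restrict shift X X) r ∧
    ¬ ∃ (g h : X → ℝ) (N : ℕ), (∀ x y : X, (∀ i : ℤ, |i| ≤ N → x.1 i = y.1 i) → g x = g y) ∧
      Continuous h ∧ ∀ x, r x - g x = h (hX.restrict shift X X x) - h x := by
  refine ⟨X0, maps, r0, ⟨_, zero.2⟩, ?_, fun x hx => ⟨_, (sh (-1) ⟨x, hx⟩).2, ?_⟩, ?_, ?_, r0_cont,
    fun x => lt_of_lt_of_le one_pos (r0_bd x).1, fun hm => ?_, ?_⟩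
  · have : X0 = ⋂ i, ⋂ j, (fun x : ℤ → Bool => (x i, x j)) ⁻¹'
        {q | i < j → q.1 = true → q.2 = true → j - i ∈ P0} := by
      ext x; simp [X0]
    rw [this]
    exact isClosed_iInter fun i => isClosed_iInter fun j =>
      (isClosed_discrete _).preimage (by fun_prop)
  · funext i; simp [shift, sh]
  · rintro U V hU hV ⟨x, hx⟩ ⟨y, hy⟩
    obtain ⟨m1, h1⟩ := cyl (hU.mem_nhds hx)
    obtain ⟨m2, h2⟩ := cyl (hV.mem_nhds hy)
    obtain ⟨n, hn⟩ : ∃ n : ℕ, (n : ℤ) = 8 ^ (2 * (m1 + m2)) + (m1 + m2) :=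
      ⟨8 ^ (2 * (m1 + m2)) + (m1 + m2), by push_cast; rfl⟩
    have hl := lt8 (2 * (m1 + m2))
    push_cast at hl
    refine ⟨n, by omega, σ0^[n] ⟨fun i => if |i| ≤ m1 then x.1 i else
      if |i - n| ≤ m2 then y.1 (i - n) else false, fun i j hij hi hj => ?_⟩,
      ⟨_, h1 _ fun i hi => by simp [hi], rfl⟩, h2 _ fun i hi => ?_⟩
    · by_cases a1 : |i| ≤ m1 <;> by_cases a2 : |j| ≤ m1 <;>
        simp only [a1, a2, if_true, if_false] at hi hj
      · exact x.2 i j hij hi hj
      · split_ifs at hj with a3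
        rw [abs_le] at a1 a3
        exact ⟨2 * (m1 + m2), by omega, by omega⟩
      · split_ifs at hi with a3
        rw [abs_le] at a2 a3
        omega
      · split_ifs at hi with a3
        split_ifs at hj with a4
        have := y.2 (i - n) (j - n) (by omega) hi hj
        rwa [sub_sub_sub_cancel_right] at this
    · rw [σ0_iter]
      have a1 : ¬ |i + n| ≤ m1 := by rw [abs_le] at hi ⊢; omega
      simp [sh, a1, hi]
  · refine (finite_singleton zero).subset ?_
    rintro x ⟨n, hn, hx⟩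
    refine Subtype.ext (funext fun i => ?_)
    by_contra hc
    have h1 : x.1 i = true := by simpa [zero] using hc
    have h2 : ∀ k : ℕ, x.1 (i + (n * k : ℕ)) = true := by
      intro k
      have : σ0^[n * k] x = x := by
        rw [Function.iterate_mul]; exact Function.iterate_fixed hx k
      rw [σ0_iter] at this
      rw [← h1, ← congrArg (fun z : X0 => z.1 i) this]; rfl
    have hl : n < 8 ^ n := Nat.lt_pow_self (by norm_num)
    have h3 := Nat.div_add_mod (2 * 8 ^ n) n
    have h4 := Nat.mod_lt (2 * 8 ^ n) hn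
    have h5 : 2 * 8 ^ n ≤ n * (2 * 8 ^ n / n + 1) ∧ n * (2 * 8 ^ n / n + 1) < 8 * 8 ^ n := by
      rw [mul_add]; omega
    generalize 2 * 8 ^ n / n + 1 = k at h5
    have h6 := x.2 i (i + (n * k : ℕ)) (by omega) h1 (h2 k)
    rw [add_sub_cancel_left] at h6
    exact gap (j := n) (by exact_mod_cast h5.1) (by exact_mod_cast h5.2) h6
  · let Q : Susp σ0 r0 → Prop := Quot.lift
      (fun p : Under r0 => p.1.1.1 0 = true ∧ 1 / 4 < p.1.2 ∧ p.1.2 < 3 / 4) (by
        rintro p q ⟨h1, h2⟩
        have := (r0_bd p.1.1).1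
        refine propext ⟨fun h => absurd h.2.2 (by linarith), fun h => ?_⟩
        rw [h2] at h
        exact absurd h.2.1 (by norm_num))
    have hQ : IsOpen {a | Q a} := by
      refine isOpen_coinduced.2 ?_
      change IsOpen {p : Under r0 | p.1.1.1 0 = true ∧ 1 / 4 < p.1.2 ∧ p.1.2 < 3 / 4}
      have k1 : Continuous fun p : Under r0 => p.1.1 := by fun_prop
      have k2 : Continuous fun p : Under r0 => p.1.2 := by fun_prop
      exact ((isOpen_discrete {true}).preimage ((co 0).comp k1)).inter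
        ((isOpen_lt continuous_const k2).inter (isOpen_lt k2 continuous_const))
    have hne : {a | Q a}.Nonempty := ⟨Quot.mk _ ⟨(e1, 1 / 2), by norm_num,
      le_trans (by norm_num) (r0_bd e1).1⟩, by simp [e1], by norm_num, by norm_num⟩
    obtain ⟨T, -, hT⟩ := hm _ _ hQ hQ hne hne
    obtain ⟨j, hj⟩ := exists_nat_ge T
    have hl : (j : ℝ) < 8 ^ j := by exact_mod_cast lt8 j
    have hl1 : (1 : ℝ) ≤ 8 ^ j := one_le_pow₀ (by norm_num)
    obtain ⟨_, ha, _, hb, p, q, n, rfl, rfl, h⟩ := hT (6 * 8 ^ j) (by linarith)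
    obtain ⟨a1, a2, a3⟩ : p.1.1.1 0 = true ∧ 1 / 4 < p.1.2 ∧ p.1.2 < 3 / 4 := ha
    obtain ⟨b1, b2, b3⟩ : q.1.1.1 0 = true ∧ 1 / 4 < q.1.2 ∧ q.1.2 < 3 / 4 := hb
    rw [h] at b1 b2 b3
    simp only at b1 b2 b3
    have s1 := Finset.card_nsmul_le_sum (Finset.range n) (fun i => r0 (σ0^[i] p.1.1)) 1
      fun i _ => (r0_bd _).1
    have s2 := Finset.sum_le_card_nsmul (Finset.range n) (fun i => r0 (σ0^[i] p.1.1)) 2
      fun i _ => (r0_bd _).2
    simp only [Finset.card_range, nsmul_eq_mul] at s1 s2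
    have c1 : (2 * 8 ^ j : ℝ) < n := by
      change _ < _ - ∑ i ∈ Finset.range n, r0 (σ0^[i] p.1.1) at b2
      change _ - ∑ i ∈ Finset.range n, r0 (σ0^[i] p.1.1) < _ at b3
      linarith
    have c2 : (n : ℝ) < 8 * 8 ^ j := by
      change _ < _ - ∑ i ∈ Finset.range n, r0 (σ0^[i] p.1.1) at b2
      linarith
    have c3 : (2 * 8 ^ j : ℤ) < n := by exact_mod_cast c1
    have c4 : (n : ℤ) < 8 * 8 ^ j := by exact_mod_cast c2
    have c5 : (σ0^[n] p.1.1).1 0 = true := b1
    rw [σ0_iter] at c5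
    have c6 : (0 : ℤ) < 8 ^ j := by positivity
    have := p.1.1.2 0 (0 + n) (by omega) a1 c5
    exact gap (j := j) (by omega) (by omega) this
  · rintro ⟨g, h, N, hg, hh, hc⟩
    have tel : ∀ (x : X0) (a : ℤ) (L : ℕ), ∑ i ∈ Finset.range L,
        (r0 (sh (a + i) x) - g (sh (a + i) x)) = h (sh (a + L) x) - h (sh a x) := by
      intro x a L
      have := Finset.sum_range_sub (fun i : ℕ => h (sh (a + i) x)) L
      simp only [Nat.cast_zero, add_zero] at this
      rw [← this]
      refine Finset.sum_congr rfl fun i _ => ?_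
      rw [hc]
      change h (σ0 _) - _ = _
      rw [σ0_sh]; push_cast; rw [add_assoc]
    have g0 : g zero = 1 := by
      have := hc zero
      have e : maps.restrict shift X0 X0 zero = zero := rfl
      rw [e, sub_self] at this
      simp [r0, zero] at this
      simp only [zero]; linarith
    obtain ⟨p, hp⟩ : ∃ p : ℕ, (8 : ℤ) ^ (2 * N + 1) = p + 1 := by
      refine ⟨8 ^ (2 * N + 1) - 1, ?_⟩
      rw [Nat.cast_sub (Nat.one_le_pow _ _ (by norm_num))]; push_cast; ring
    have hl := lt8 (2 * N + 1)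
    push_cast at hl
    have r1 : ∀ n, r0 (sh n e1) = 1 := by
      intro n
      unfold r0
      split_ifs with h0
      · have h1 : n = 0 := by simpa [sh, e1] using h0
        have : ∀ q : ℕ, ¬ ((q : ℤ) + 1 = 0) := fun q => by omega
        simp [tl, sh, e1, h1, this]
      · simp
    have r2 : ∀ n, r0 (sh n (e2 (2 * N + 1))) = 1 + if n = 0 then (1 / 2 : ℝ) ^ (p + 1) else 0 := by
      intro n
      unfold r0
      congr 1
      by_cases h0 : n = 0
      · subst h0
        simp only [sh, e2, tl, add_zero, true_or, decide_true, if_true, decide_eq_true_eq, hp]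
        rw [tsum_eq_single p]
        · simp
        · intro q hq
          rw [if_neg (by omega)]
      · rw [if_neg h0]
        split_ifs with h1
        · simp only [sh, e2, zero_add, decide_eq_true_eq, h0, false_or] at h1
          simp only [sh, e2, tl, decide_eq_true_eq, h1]
          rw [tsum_congr (g := fun _ => 0) fun q => if_neg (by omega)]
          simp
        · rfl
    have g2 : ∀ n, g (sh n (e2 (2 * N + 1))) + 1 = g (sh n e1) + g (sh (n - (p + 1)) e1) := by
      intro n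
      by_cases h0 : |n| ≤ N
      · rw [hg (sh (n - (p + 1)) e1) zero, hg (sh n (e2 (2 * N + 1))) (sh n e1), g0]
        · intro i hi
          rw [abs_le] at hi h0
          simp only [sh, e1, e2, decide_eq_decide]; omega
        · intro i hi
          rw [abs_le] at hi h0
          simp only [sh, e1, zero, decide_eq_false_iff_not]; omega
      · rw [hg (sh n e1) zero, hg (sh n (e2 (2 * N + 1))) (sh (n - (p + 1)) e1), g0, add_comm]
        · intro i hi
          rw [abs_le] at hi h0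
          simp only [sh, e1, e2, decide_eq_decide]; omega
        · intro i hi
          rw [abs_le] at hi h0
          simp only [sh, e1, zero, decide_eq_false_iff_not]; omega
    have key : ∀ M : ℕ, 1 ≤ M → h (sh (1 * M + 0) (e2 (2 * N + 1))) -
        h (sh (-1 * M + 0) (e2 (2 * N + 1))) - (h (sh (1 * M + 0) e1) - h (sh (-1 * M + 0) e1)) -
        (h (sh (1 * M + -(p + 1)) e1) - h (sh (-1 * M + -(p + 1)) e1)) = (1 / 2 : ℝ) ^ (p + 1) := by
      intro M hM
      have t1 := tel (e2 (2 * N + 1)) (-1 * M + 0) (2 * M)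
      have t2 := tel e1 (-1 * M + 0) (2 * M)
      have t3 := tel e1 (-1 * M + -(p + 1)) (2 * M)
      have q1 : (-1 * (M : ℤ) + 0 + (2 * M : ℕ)) = 1 * M + 0 := by push_cast; ring
      have q2 : (-1 * (M : ℤ) + -(p + 1) + (2 * M : ℕ)) = 1 * M + -(p + 1) := by push_cast; ring
      rw [q1] at t1 t2
      rw [q2] at t3
      rw [← t1, ← t2, ← t3, ← Finset.sum_sub_distrib, ← Finset.sum_sub_distrib,
        Finset.sum_eq_single M]
      · have := g2 (-1 * M + 0 + M)
        have q3 : (-1 * (M : ℤ) + 0 + M - (p + 1)) = -1 * M + -(p + 1) + M := by ring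
        rw [q3] at this
        rw [r1, r1, r2, if_pos (by ring)]
        linarith
      · intro i _ hi
        have := g2 (-1 * M + 0 + i)
        have q3 : (-1 * (M : ℤ) + 0 + i - (p + 1)) = -1 * M + -(p + 1) + i := by ring
        rw [q3] at this
        rw [r1, r1, r2, if_neg (by omega)]
        linarith
      · intro hM2
        exact absurd (Finset.mem_range.2 (by omega)) hM2
    have b1 : ∀ i, e1.1 i = true → |i| ≤ 0 := fun i hi => by
      simp only [e1, decide_eq_true_eq] at hi; simp [hi]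
    have b2 : ∀ i, (e2 (2 * N + 1)).1 i = true → |i| ≤ p + 1 := fun i hi => by
      simp only [e2, decide_eq_true_eq] at hi; rw [abs_le]; omega
    have lim := fun x B hx ε c hε => (hh.tendsto zero).comp (to_zero x B hx ε c hε)
    have l1 := (((lim _ _ b2 1 0 (Or.inl rfl)).sub (lim _ _ b2 (-1) 0 (Or.inr rfl))).sub
      ((lim _ _ b1 1 0 (Or.inl rfl)).sub (lim _ _ b1 (-1) 0 (Or.inr rfl)))).sub
      ((lim _ _ b1 1 (-(p + 1)) (Or.inl rfl)).sub (lim _ _ b1 (-1) (-(p + 1)) (Or.inr rfl)))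
    have l2 := tendsto_nhds_unique l1 (tendsto_const_nhds.congr' (by
      filter_upwards [eventually_ge_atTop 1] with M hM
      exact (key M hM).symm))
    have : (0 : ℝ) < (1 / 2) ^ (p + 1) := by positivity
    linarith

end Pool.Agent.Results.MP_49f1ce_an.Counter
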